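import Mathlib

/-!
# Local to global: Moreau forms on a graph and boxes of the torus

A form is a function `Q : (X → ℝ) → ℝ`. The reference (Moreau) form with node weights `al ≥ 0` and
bond weights `be ≥ 0` is the minimum over `h` of `mor s t al be f h`; we never take the minimum,
`LB` and `UB` say the same with quantifiers. `ep` is the type of the bonds, `s e` and `t e` are the
two ends of the bond `e`. The function `h` lives on ALL sites, also on those with `al x = 0`.
-/

set_option autoImplicit false

open scoped BigOperators

noncomputable section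

namespace Pool.Agent.LTG

section graph

variable {X ep : Type*} [Fintype X] [Fintype ep]

/-- the energy of the bonds -/
def bon (s t : ep → X) (be : ep → ℝ) (h : X → ℝ) : ℝ := ∑ e, be e * (h (t e) - h (s e)) ^ 2

/-- the Moreau form with the pair `f`, `h` -/
def mor (s t : ep → X) (al : X → ℝ) (be : ep → ℝ) (f h : X → ℝ) : ℝ :=
  ∑ x, al x * (f x - h x) ^ 2 + bon s t be h

/-- the form `Q` is bounded below by the Moreau form with weights `al`, `be` -/
def LB (s t : ep → X) (Q : (X → ℝ) → ℝ) (al : X → ℝ) (be : ep → ℝ) : Prop :=
  ∀ f, ∃ h, mor s t al be f h ≤ Q f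

/-- the form `Q` is bounded above by the Moreau form with weights `al`, `be` -/
def UB (s t : ep → X) (Q : (X → ℝ) → ℝ) (al : X → ℝ) (be : ep → ℝ) : Prop :=
  ∀ f h, Q f ≤ mor s t al be f h

/-- node weights cut to the set `B` -/
def cutX (B : X → Prop) [DecidablePred B] (al : X → ℝ) (x : X) : ℝ := if B x then al x else 0

/-- bond weights cut to the bonds with both ends in `B` -/
def cutE (s t : ep → X) (B : X → Prop) [DecidablePred B] (be : ep → ℝ) (e : ep) : ℝ :=
  if B (s e) ∧ B (t e) then be e else 0

/-- the part of the Moreau form in `B`: nodes in `B`, bonds with both ends in `B` -/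
def morB (s t : ep → X) (B : X → Prop) [DecidablePred B] (al : X → ℝ) (be : ep → ℝ)
    (f h : X → ℝ) : ℝ := mor s t (cutX B al) (cutE s t B be) f h

end graph

section ladder

variable {X : Type*} [Fintype X]

/-- the quadratic form of a matrix -/
def qd (E : Matrix X X ℝ) (f : X → ℝ) : ℝ := ∑ a, f a * (E.mulVec f) a

/-- `E1 = (1 + E T)⁻¹ E` with `T = diag τ`, `τ ≥ 0`, `E` symmetric and nonnegative: the ladder
flow of `E`, the resistance `τ x` is added at the node `x` -/
structure Lad [DecidableEq X] (E E1 : Matrix X X ℝ) (τ : X → ℝ) : Prop where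
  sym : E.IsSymm
  psd : ∀ f, 0 ≤ qd E f
  tau : ∀ x, 0 ≤ τ x
  eq : E1 + E * Matrix.diagonal τ * E1 = E

end ladder

section torus

variable {d M : ℕ}

/-- the sites of the torus `(ℤ/M)^d` -/
abbrev Tor (d M : ℕ) : Type := Fin d → ZMod M

/-- the bonds of the torus: the bond `(i, x)` joins `x` and `x + e_i` -/
abbrev Bd (d M : ℕ) : Type := Fin d × Tor d M

/-- the first end of a bond -/
def sT (e : Bd d M) : Tor d M := e.2

/-- the second end of a bond -/
def tT (e : Bd d M) : Tor d M := e.2 + Pi.single e.1 1

/-- coordinates of `x` seen from the corner `a`: numbers in `[0, M)` -/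
def off (a x : Tor d M) (i : Fin d) : ℕ := (x i - a i).val

/-- the box with corner `a` and side `L` (`L` sites in every direction) -/
def Box (a : Tor d M) (L : ℕ) (x : Tor d M) : Prop := ∀ i, off a x i < L

/-- the sites of the box with corner `a` and side `L` at depth `R` inside -/
def Core (a : Tor d M) (L R : ℕ) (x : Tor d M) : Prop := ∀ i, R ≤ off a x i ∧ off a x i + R < L

instance (a : Tor d M) (L : ℕ) : DecidablePred (Box a L) := fun x => by
  unfold Box; infer_instance

instance (a : Tor d M) (L R : ℕ) : DecidablePred (Core a L R) := fun x => by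
  unfold Core; infer_instance

end torus

end Pool.Agent.LTG
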